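import Pool.Agent.H77.TgA

universe u

theorem Pool.Agent.Results.MP_e752eb_gt.Metrizable.result :
    ∀ (X : Type u) [TopologicalSpace X] [TopologicalSpace.IsCompletelyMetrizableSpace X],
      H77.Tg.StronglyTelgarsky X :=
  fun X _ _ => H77.Tg.main X
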